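import Pool.Agent.Helper6.LPA.St

/-!
# Project LPA, module MAS: products over the primes in `(z, w]`
-/

set_option autoImplicit false

noncomputable section

namespace Pool.Agent.Helper7.LPA

open Finset
open Pool.Agent.Helper6.LP Pool.Agent.Helper6.LPA
open Pool.Agent.Helper15.AB (StMT)
open Pool.Agent.Helper98.LM (QQ)

private theorem exp_low {x : ℝ} (h0 : 0 ≤ x) (h1 : x ≤ 1 / 2) : Real.exp (-x - x ^ 2) ≤ 1 - x := by
  have h2 := Real.quadratic_le_exp_of_nonneg (x := x + x ^ 2) (by positivity)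
  have h3 : Real.exp (-x - x ^ 2) = (Real.exp (x + x ^ 2))⁻¹ := by
    rw [← Real.exp_neg]; congr 1; ring
  rw [h3, inv_le_iff_one_le_mul₀ (Real.exp_pos _)]
  have h4 : 1 ≤ (1 - x) * (1 + (x + x ^ 2) + (x + x ^ 2) ^ 2 / 2) := by
    have h5 : (1 - x) * (1 + (x + x ^ 2) + (x + x ^ 2) ^ 2 / 2) =
        1 + x ^ 2 * ((1 - x) * (1 + x) ^ 2 - 2 * x) / 2 := by ring
    rw [h5]
    have h6 : 0 ≤ (1 - x) * (1 + x) ^ 2 - 2 * x := by nlinarith [mul_nonneg h0 (sub_nonneg.2 h1)]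
    have h7 : 0 ≤ x ^ 2 * ((1 - x) * (1 + x) ^ 2 - 2 * x) / 2 := by positivity
    linarith
  exact h4.trans (mul_le_mul_of_nonneg_left h2 (by linarith))

private theorem prod_up (Q : Finset ℕ) {k : ℝ} (hk : 0 ≤ k) :
    ∏ l ∈ Q, (1 + k / (l : ℝ)) ≤ Real.exp (k * ∑ l ∈ Q, 1 / (l : ℝ)) := by
  rw [mul_sum, Real.exp_sum]
  apply prod_le_prod
  · intro l _
    positivity
  · intro l _
    have h := Real.add_one_le_exp (k * (1 / (l : ℝ)))
    calc 1 + k / (l : ℝ) = k * (1 / (l : ℝ)) + 1 := by ring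
      _ ≤ _ := h

theorem hMAS (hM : StMT) : StMAS := by
  classical
  obtain ⟨C0, hC0, hM⟩ := hM
  refine ⟨2 ^ 12 * Real.exp (24 * C0 + 9), ?_, ?_⟩
  · have h1 : 1 ≤ Real.exp (24 * C0 + 9) := Real.one_le_exp (by positivity)
    linarith
  intro z w B hz hzw hB hwB
  have hz3 : (3 : ℝ) ≤ z := by exact_mod_cast (by omega : 3 ≤ z)
  have hw3 : (3 : ℝ) ≤ w := by exact_mod_cast (by omega : 3 ≤ w)
  have hB1 : (1 : ℝ) ≤ B := by exact_mod_cast hB
  have hlz : 0 < Real.log z := Real.log_pos (by linarith)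
  have hlw : 0 < Real.log w := Real.log_pos (by linarith)
  set S : ℝ := ∑ l ∈ QQ z w, 1 / (l : ℝ) with hS
  have hS0 : 0 ≤ S := sum_nonneg fun l _ => by positivity
  have hlog : Real.log w ≤ 2 * B * Real.log z := by
    have h1 : (w : ℝ) ≤ ((z : ℝ) + 1) ^ B := by exact_mod_cast hwB.le
    have h2 := Real.log_le_log (by linarith) h1
    rw [Real.log_pow] at h2
    have h3 : Real.log ((z : ℝ) + 1) ≤ 2 * Real.log z := by
      have h4 : (z : ℝ) + 1 ≤ (z : ℝ) ^ 2 := by nlinarith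
      have h5 := Real.log_le_log (by linarith) h4
      rw [Real.log_pow] at h5
      exact_mod_cast h5
    calc Real.log w ≤ B * Real.log ((z : ℝ) + 1) := h2
      _ ≤ B * (2 * Real.log z) := mul_le_mul_of_nonneg_left h3 (by linarith)
      _ = _ := by ring
  have hSle : S ≤ Real.log (2 * B) + 2 * C0 := by
    have h1 := hM (w : ℝ) hw3
    have h2 := hM (z : ℝ) hz3
    rw [Nat.floor_natCast] at h1 h2
    have h3 : ∑ l ∈ (Icc 1 w).filter Nat.Prime, 1 / (l : ℝ) =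
        ∑ l ∈ (Icc 1 z).filter Nat.Prime, 1 / (l : ℝ) + S := by
      rw [hS]
      unfold QQ
      rw [← sum_union]
      · congr 1
        ext l
        simp only [mem_union, mem_filter, mem_Icc, mem_Ioc]
        constructor
        · rintro ⟨⟨a1, a2⟩, a3⟩
          by_cases h : l ≤ z
          · exact Or.inl ⟨⟨a1, h⟩, a3⟩
          · exact Or.inr ⟨⟨by omega, a2⟩, a3⟩
        · rintro (⟨⟨a1, a2⟩, a3⟩ | ⟨⟨a1, a2⟩, a3⟩)
          · exact ⟨⟨a1, by omega⟩, a3⟩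
          · exact ⟨⟨by omega, a2⟩, a3⟩
      · rw [disjoint_left]
        intro l h4 h5
        rw [mem_filter, mem_Icc] at h4
        rw [mem_filter, mem_Ioc] at h5
        omega
    have h4 := (abs_le.1 h1).2
    have h5 := (abs_le.1 h2).1
    have h6 : Real.log (Real.log w) ≤ Real.log (2 * B) + Real.log (Real.log z) := by
      rw [← Real.log_mul (by positivity) hlz.ne']
      exact Real.log_le_log hlw hlog
    linarith
  have hpow : ∀ k : ℕ, Real.exp ((k : ℝ) * S) ≤ (2 * (B : ℝ)) ^ k * Real.exp (2 * k * C0) := by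
    intro k
    have h1 : (2 * (B : ℝ)) ^ k = Real.exp (k * Real.log (2 * B)) := by
      rw [← Real.log_pow, Real.exp_log (by positivity)]
    rw [h1, ← Real.exp_add]
    apply Real.exp_le_exp.2
    have h2 := mul_le_mul_of_nonneg_left hSle (Nat.cast_nonneg (α := ℝ) k)
    linarith
  have hmain : ∀ k : ℕ, k ≤ 12 → Real.exp ((k : ℝ) * S + 9) ≤
      2 ^ 12 * Real.exp (24 * C0 + 9) * (B : ℝ) ^ k := by
    intro k hk
    have hkR : (k : ℝ) ≤ 12 := by exact_mod_cast hk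
    have h1 : Real.exp (2 * k * C0) ≤ Real.exp (24 * C0) := by
      apply Real.exp_le_exp.2
      nlinarith
    have h2 : (2 : ℝ) ^ k ≤ 2 ^ 12 := pow_le_pow_right₀ (by norm_num) hk
    rw [Real.exp_add, Real.exp_add]
    calc Real.exp ((k : ℝ) * S) * Real.exp 9
        ≤ ((2 * (B : ℝ)) ^ k * Real.exp (2 * k * C0)) * Real.exp 9 :=
          mul_le_mul_of_nonneg_right (hpow k) (Real.exp_pos _).le
      _ = 2 ^ k * (B : ℝ) ^ k * Real.exp (2 * k * C0) * Real.exp 9 := by rw [mul_pow]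
      _ ≤ 2 ^ 12 * (B : ℝ) ^ k * Real.exp (24 * C0) * Real.exp 9 := by gcongr
      _ = _ := by ring
  have hexp9 : ∀ k : ℕ, Real.exp ((k : ℝ) * S) ≤ Real.exp ((k : ℝ) * S + 9) := fun k =>
    Real.exp_le_exp.2 (by linarith)
  refine ⟨?_, ?_, ?_⟩
  · have h1 := prod_up (QQ z w) (k := 3) (by norm_num)
    have h2 := hexp9 3
    have h3 := hmain 3 (by norm_num)
    push_cast at h2 h3
    exact h1.trans (h2.trans h3)
  · have h1 := prod_up (QQ z w) (k := 12) (by norm_num)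
    have h2 := hexp9 12
    have h3 := hmain 12 (by norm_num)
    push_cast at h2 h3
    exact h1.trans (h2.trans h3)
  · have hfac : ∀ l ∈ QQ z w, Real.exp (-(3 / (l : ℝ)) - 9 * ((l : ℝ) ^ 2)⁻¹) ≤
        1 - 3 / (l : ℝ) := by
      intro l hl
      unfold QQ at hl
      rw [mem_filter, mem_Ioc] at hl
      have hl0 : (24 : ℝ) ≤ l := by exact_mod_cast (by omega : 24 ≤ l)
      have hx0 : 0 ≤ 3 / (l : ℝ) := by positivity
      have hx1 : 3 / (l : ℝ) ≤ 1 / 2 := by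
        rw [div_le_div_iff₀ (by linarith) (by norm_num)]
        linarith
      have h3 := exp_low hx0 hx1
      have h4 : (3 / (l : ℝ)) ^ 2 = 9 * ((l : ℝ) ^ 2)⁻¹ := by
        rw [div_pow, div_eq_mul_inv]
        norm_num
      rwa [h4] at h3
    have hprod : Real.exp (∑ l ∈ QQ z w, (-(3 / (l : ℝ)) - 9 * ((l : ℝ) ^ 2)⁻¹)) ≤
        ∏ l ∈ QQ z w, (1 - 3 / (l : ℝ)) := by
      rw [Real.exp_sum]
      exact prod_le_prod (fun _ _ => (Real.exp_pos _).le) hfac
    have hsq : ∑ l ∈ QQ z w, ((l : ℝ) ^ 2)⁻¹ ≤ 1 := by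
      have h1 : ∑ l ∈ QQ z w, ((l : ℝ) ^ 2)⁻¹ ≤ ∑ l ∈ Ioc z w, ((l : ℝ) ^ 2)⁻¹ :=
        sum_le_sum_of_subset_of_nonneg (filter_subset _ _) (fun l _ _ => by positivity)
      have h2 := sum_Ioc_inv_sq_le_sub (α := ℝ) (k := z) (n := w) (by omega) hzw
      have h3 : (0 : ℝ) ≤ (w : ℝ)⁻¹ := by positivity
      have h4 : (z : ℝ)⁻¹ ≤ 1 := by
        apply inv_le_one_of_one_le₀
        linarith
      linarith
    have hsum : -(3 * S + 9) ≤ ∑ l ∈ QQ z w, (-(3 / (l : ℝ)) - 9 * ((l : ℝ) ^ 2)⁻¹) := by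
      have e : ∑ l ∈ QQ z w, (-(3 / (l : ℝ)) - 9 * ((l : ℝ) ^ 2)⁻¹) =
          -(3 * S) - 9 * ∑ l ∈ QQ z w, ((l : ℝ) ^ 2)⁻¹ := by
        rw [hS, sum_sub_distrib, sum_neg_distrib, mul_sum, mul_sum]
        congr 2
        exact sum_congr rfl fun l _ => by ring
      rw [e]
      linarith
    have h1 := (Real.exp_le_exp.2 hsum).trans hprod
    have h3 := hmain 3 (by norm_num)
    push_cast at h3
    have hpos : 0 ≤ 2 ^ 12 * Real.exp (24 * C0 + 9) * (B : ℝ) ^ 3 := by positivity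
    calc (1 : ℝ) = Real.exp (3 * S + 9) * Real.exp (-(3 * S + 9)) := by
          rw [← Real.exp_add, add_neg_cancel, Real.exp_zero]
      _ ≤ (2 ^ 12 * Real.exp (24 * C0 + 9) * (B : ℝ) ^ 3) * ∏ l ∈ QQ z w, (1 - 3 / (l : ℝ)) :=
          mul_le_mul h3 h1 (Real.exp_pos _).le hpos

end Pool.Agent.Helper7.LPA
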